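import Pool.Agent.P.MP_6e435d_co.Heap

set_option autoImplicit false

namespace Pool.Agent.Results.MP_6e435d_co.AtomicWeight

open Pool.Agent.P.MP_6e435d_co

/-- One-dimensional Clobber on a row of any number of blocks of the shapes that arise from
alternating strips, played together with a Nim heap of size at least two: the winner is read off
from the sum of the weights of the blocks. -/
theorem result :
    ∀ (L : List Sh) (W : (Fin (rowOf (L.map Sh.l)).length → Option Bool) → ℕ → Bool → Prop),
      (∀ p h b, W p h b ↔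
        (∃ i j, (i.val + 1 = j.val ∨ j.val + 1 = i.val) ∧ p i = some b ∧ p j = some (!b) ∧
          ¬ W (Function.update (Function.update p i none) j (some b)) h (!b)) ∨
        ∃ k, k < h ∧ ¬ W p k (!b)) →
      ∀ h, 2 ≤ h →
        (W (rowOf (L.map Sh.l)).get h true ↔
          -2 < (L.map Sh.wt).sum ∨ ((L.map Sh.wt).sum = -2 ∧ Odd (L.countP Sh.st))) ∧
        (W (rowOf (L.map Sh.l)).get h false ↔
          (L.map Sh.wt).sum < 2 ∨ ((L.map Sh.wt).sum = 2 ∧ Odd (L.countP Sh.st))) := by
  intro L W hW h hh
  rw [G.frozen_heap' _ W hW, G.frozen_heap' _ W hW, G.v_rowSh, Nat.odd_iff, ← G.SM_coe,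
    ← G.HM_coe]
  exact ⟨G.heap_GA _ hh, G.heap_R _ hh⟩

end Pool.Agent.Results.MP_6e435d_co.AtomicWeight
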