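import Pool.Agent.P.MP_6e435d_co.G.Mem

set_option autoImplicit false

namespace Pool.Agent.Results.MP_6e435d_co.GraphPSPACE

open Pool.Agent.P.MP_6e435d_co.G

theorem result : InAP Lang ∧ ∀ L : Set (List Bool), InAP L →
    ∃ f : List Bool → List Bool, Nonempty (Turing.TM2ComputableInPolyTime id id f) ∧
      ∀ x, (∃ (N : ℕ) (H : SimpleGraph (Fin N)) (c : Fin N → Bool), f x = code H c ∧
        H.Colorable 2 ∧ ∀ v, (H.neighborSet v).ncard ≤ 6) ∧ (x ∈ L ↔ f x ∈ Lang) :=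
  ⟨mem_ap, hard⟩

end Pool.Agent.Results.MP_6e435d_co.GraphPSPACE
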