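import Pool.Agent.P.MP_6e435d_co.Gr.Hard

set_option autoImplicit false

namespace Pool.Agent.Results.MP_6e435d_co.GridPSPACE

open Pool.Agent.P.MP_6e435d_co.G Pool.Agent.P.MP_6e435d_co.Gr

theorem result : InAP GridLang ∧ ∀ L : Set (List Bool), InAP L →
    ∃ f : List Bool → List Bool, Nonempty (Turing.TM2ComputableInPolyTime id id f) ∧
      ∀ x, x ∈ L ↔ f x ∈ GridLang :=
  ⟨Pool.Agent.P.MP_6e435d_co.Gr.mem_ap, Pool.Agent.P.MP_6e435d_co.Gr.hard⟩

end Pool.Agent.Results.MP_6e435d_co.GridPSPACE
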