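import Pool.Agent.P.MP_6e435d_co.Final

set_option autoImplicit false

namespace Pool.Agent.Results.MP_6e435d_co.Strips

open Pool.Agent.P.MP_6e435d_co

/-- One-dimensional Clobber on a row of any number of alternating strips, none of length 5, 7
or 9: exactly when the player `b` to move wins. -/
theorem result :
    ∀ L : List (Bool × ℕ), (∀ s ∈ L, s.2 ≠ 5 ∧ s.2 ≠ 7 ∧ s.2 ≠ 9) →
      ∀ W : (Fin (strips L).length → Option Bool) → Bool → Prop,
        (∀ p b, W p b ↔
          ∃ i j, (i.val + 1 = j.val ∨ j.val + 1 = i.val) ∧ p i = some b ∧ p j = some (!b) ∧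
            ¬ W (Function.update (Function.update p i none) j (some b)) (!b)) →
        ∀ b, W (strips L).get b ↔
          1 ≤ dd b L ∨
          (dd b L = 0 ∧ ((∃ n, Odd n ∧ 5 ≤ n ∧ od b L n ≠ 0) ∨ ∃ i, Even i ∧ ev L i ≠ 0)) ∨
          ∃ m j, Odd m ∧ 5 ≤ m ∧ (j = m + 3 ∨ j + 3 = m) ∧
            (∀ n, Odd n → 5 ≤ n → od b L n = if n = m then -1 else 0) ∧
            ∀ i, Even i → ev L i = (piece j).count i := by
  intro L h W hW b
  rw [G.frozen_plain _ W hW]
  exact G.final L h b

end Pool.Agent.Results.MP_6e435d_co.Strips
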